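import Mathlib

/-! Group-theoretic core: killing the non-invariant part of the rational abelianisation of a
finite-index normal subgroup by deep commutators. -/

namespace Pool.Agent.P.MP_09d285_al

open scoped commutatorElement

section General

variable {F : Type*} [Group F]

/-- `ψ` is additive on the subgroup `H`. -/
def AddOn (H : Subgroup F) (ψ : F → ℚ) : Prop :=
  ∀ a ∈ H, ∀ b ∈ H, ψ (a * b) = ψ a + ψ b

theorem AddOn.one {H : Subgroup F} {ψ : F → ℚ} (h : AddOn H ψ) : ψ 1 = 0 := by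
  have := h 1 H.one_mem 1 H.one_mem
  rw [mul_one] at this
  linarith

theorem AddOn.inv {H : Subgroup F} {ψ : F → ℚ} (h : AddOn H ψ) {a : F} (ha : a ∈ H) :
    ψ a⁻¹ = - ψ a := by
  have := h a ha a⁻¹ (H.inv_mem ha)
  rw [mul_inv_cancel, h.one] at this
  linarith

theorem AddOn.pow {H : Subgroup F} {ψ : F → ℚ} (h : AddOn H ψ) {a : F} (ha : a ∈ H) (n : ℕ) :
    ψ (a ^ n) = n * ψ a := by
  induction n with
  | zero => simp [h.one]
  | succ n ih => rw [pow_succ, h _ (H.pow_mem ha n) _ ha, ih]; push_cast; ring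

/-- The zero set of an additive function inside `H`. -/
def AddOn.ker {H : Subgroup F} {ψ : F → ℚ} (h : AddOn H ψ) : Subgroup F where
  carrier := {a | a ∈ H ∧ ψ a = 0}
  one_mem' := ⟨H.one_mem, h.one⟩
  mul_mem' := by
    rintro a b ⟨ha, ha'⟩ ⟨hb, hb'⟩
    exact ⟨H.mul_mem ha hb, by rw [h a ha b hb, ha', hb', add_zero]⟩
  inv_mem' := by
    rintro a ⟨ha, ha'⟩
    exact ⟨H.inv_mem ha, by rw [h.inv ha, ha', neg_zero]⟩

/-- Iterated commutators `[H, F, ..., F]`. -/
def C (H : Subgroup F) : ℕ → Subgroup F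
  | 0 => H
  | n + 1 => ⁅C H n, ⊤⁆

theorem C_le_lcs (H : Subgroup F) (n : ℕ) : C H n ≤ (⊤ : Subgroup F).lowerCentralSeries n := by
  induction n with
  | zero => exact le_top
  | succ n ih =>
    rw [Subgroup.lowerCentralSeries_succ]
    exact Subgroup.commutator_mono ih le_rfl

theorem C_normal (H : Subgroup F) [hH : H.Normal] (n : ℕ) : (C H n).Normal := by
  induction n with
  | zero => exact hH
  | succ n ih => exact Subgroup.commutator_normal _ _

theorem C_le (H : Subgroup F) [hH : H.Normal] (n : ℕ) : C H n ≤ H := by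
  induction n with
  | zero => exact le_rfl
  | succ n ih =>
    have := C_normal H n
    exact (Subgroup.commutator_le_left _ _).trans ih

theorem conj_inv_of_vanish {H : Subgroup F} [hH : H.Normal] {ψ : F → ℚ} (h : AddOn H ψ) (n : ℕ)
    (hv : ∀ c ∈ C H (n + 1), ψ c = 0) {e : F} (he : e ∈ C H n) (x : F) :
    ψ (x * e * x⁻¹) = ψ e := by
  have heH : e ∈ H := C_le H n he
  have h1 : ⁅e, x⁆ ∈ C H (n + 1) := Subgroup.commutator_mem_commutator he (Subgroup.mem_top x)
  have h2 := hv _ h1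
  have h3 : ⁅e, x⁆ = e * (x * e * x⁻¹)⁻¹ := by rw [commutatorElement_def]; group
  have h4 : x * e * x⁻¹ ∈ H := hH.conj_mem e heH x
  rw [h3, h e heH _ (H.inv_mem h4), h.inv h4] at h2
  linarith

theorem descend_step {H : Subgroup F} [hH : H.Normal] [H.FiniteIndex] {ψ : F → ℚ}
    (h : AddOn H ψ) (n : ℕ) (hv : ∀ c ∈ C H (n + 2), ψ c = 0) : ∀ c ∈ C H (n + 1), ψ c = 0 := by
  have key : C H (n + 1) ≤ h.ker := by
    change ⁅C H n, ⊤⁆ ≤ h.ker
    rw [Subgroup.commutator_le]
    intro c hc x _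
    have hcH : c ∈ H := C_le H n hc
    have hmem : ∀ y : F, ⁅c, y⁆ ∈ C H (n + 1) := fun y =>
      Subgroup.commutator_mem_commutator hc (Subgroup.mem_top y)
    have hmemH : ∀ y : F, ⁅c, y⁆ ∈ H := fun y => C_le H (n + 1) (hmem y)
    refine ⟨hmemH x, ?_⟩
    have hadd : AddOn (⊤ : Subgroup F) (fun y => ψ ⁅c, y⁆) := by
      intro a _ b _
      have e1 : ⁅c, a * b⁆ = ⁅c, a⁆ * (a * ⁅c, b⁆ * a⁻¹) := by
        simp only [commutatorElement_def]; group
      simp only
      rw [e1, h _ (hmemH a) _ (hH.conj_mem _ (hmemH b) a),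
        conj_inv_of_vanish h (n + 1) hv (hmem b) a]
    have hzero : ∀ y ∈ H, ψ ⁅c, y⁆ = 0 := by
      intro y hy
      rw [commutatorElement_def, h _ (H.mul_mem (H.mul_mem hcH hy) (H.inv_mem hcH)) _ (H.inv_mem hy),
        h _ (H.mul_mem hcH hy) _ (H.inv_mem hcH), h _ hcH _ hy, h.inv hcH, h.inv hy]
      ring
    have h1 := hadd.pow (Subgroup.mem_top x) H.index
    rw [hzero _ (H.pow_index_mem x)] at h1
    have h2 : (H.index : ℚ) ≠ 0 := by exact_mod_cast Subgroup.FiniteIndex.index_ne_zero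
    exact (mul_eq_zero.mp h1.symm).resolve_left h2
  intro c hc
  exact (key hc).2

theorem descend {H : Subgroup F} [hH : H.Normal] [H.FiniteIndex] {ψ : F → ℚ}
    (h : AddOn H ψ) (n : ℕ) (hv : ∀ c ∈ C H (n + 1), ψ c = 0) : ∀ c ∈ C H 1, ψ c = 0 := by
  induction n with
  | zero => exact hv
  | succ n ih => exact ih (descend_step h n hv)

/-- Transfer: an invariant additive function on `H` has an additive multiple extension. -/
theorem exists_transfer {H : Subgroup F} [hH : H.Normal] [H.FiniteIndex] {ψ : F → ℚ}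
    (h : AddOn H ψ) (hinv : ∀ e ∈ H, ∀ x : F, ψ (x * e * x⁻¹) = ψ e) :
    ∃ T : F → ℚ, AddOn ⊤ T ∧ ∀ e ∈ H, T e = H.index * ψ e := by
  classical
  let := H.fintypeQuotientOfFiniteIndex
  have hmem : ∀ (x : F) (q : F ⧸ H), (x • q).out⁻¹ * x * q.out ∈ H := by
    intro x q
    rw [mul_assoc, ← QuotientGroup.eq, QuotientGroup.out_eq']
    conv_lhs => rw [← QuotientGroup.out_eq' q]
    rfl
  refine ⟨fun x => ∑ q : F ⧸ H, ψ ((x • q).out⁻¹ * x * q.out), ?_, ?_⟩
  · intro a _ b _
    simp only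
    have e1 : ∑ q : F ⧸ H, ψ ((a • q).out⁻¹ * a * q.out)
        = ∑ q : F ⧸ H, ψ ((a • b • q).out⁻¹ * a * (b • q).out) :=
      (Fintype.sum_equiv (MulAction.toPerm b) _ _ (fun q => rfl)).symm
    rw [e1, ← Finset.sum_add_distrib]
    refine Finset.sum_congr rfl fun q _ => ?_
    rw [← h _ (hmem a (b • q)) _ (hmem b q), mul_smul]
    congr 1
    group
  · intro e he
    simp only
    have e1 : ∀ q : F ⧸ H, e • q = q := by
      intro q
      induction q using QuotientGroup.induction_on with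
      | H z =>
        change ((e * z : F) : F ⧸ H) = z
        rw [QuotientGroup.eq]
        have := hH.conj_mem _ (H.inv_mem he) z⁻¹
        convert this using 1
        group
    have e2 : ∀ q : F ⧸ H, ψ ((e • q).out⁻¹ * e * q.out) = ψ e := by
      intro q
      rw [e1 q]
      have := hinv e he q.out⁻¹
      rwa [inv_inv] at this
    rw [Finset.sum_congr rfl fun q _ => e2 q, Finset.sum_const, Finset.card_univ, nsmul_eq_mul,
      Subgroup.index, Nat.card_eq_fintype_card]

/-- Main rigidity statement: an additive function on `H` that kills deep commutators and the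
`index`-th powers of a generating set of `F` vanishes on `H`. -/
theorem vanish {H : Subgroup F} [hH : H.Normal] [H.FiniteIndex] {ψ : F → ℚ}
    (h : AddOn H ψ) (n : ℕ) (hv : ∀ c ∈ C H (n + 1), ψ c = 0)
    (X : Set F) (hX : Subgroup.closure X = ⊤) (hp : ∀ x ∈ X, ψ (x ^ H.index) = 0) :
    ∀ e ∈ H, ψ e = 0 := by
  have h1 := descend h n hv
  have hinv : ∀ e ∈ H, ∀ x : F, ψ (x * e * x⁻¹) = ψ e := fun e he x =>
    conj_inv_of_vanish h 0 h1 he x
  obtain ⟨T, hT, hTe⟩ := exists_transfer h hinv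
  have h2 : (H.index : ℚ) ≠ 0 := by exact_mod_cast Subgroup.FiniteIndex.index_ne_zero
  have hle : (⊤ : Subgroup F) ≤ hT.ker := by
    refine hX.symm.le.trans ?_
    rw [Subgroup.closure_le]
    intro x hx
    refine ⟨Subgroup.mem_top x, ?_⟩
    have h3 := hT.pow (Subgroup.mem_top x) H.index
    rw [hTe _ (H.pow_index_mem x), hp x hx, mul_zero] at h3
    exact (mul_eq_zero.mp h3.symm).resolve_left h2
  intro e he
  have h4 := (hle (Subgroup.mem_top e)).2
  rw [hTe e he] at h4
  exact (mul_eq_zero.mp h4).resolve_left h2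

/-- The space of additive functions on `H`, extended by zero. -/
def W (H : Subgroup F) : Submodule ℚ (F → ℚ) where
  carrier := {ψ | AddOn H ψ ∧ ∀ x, x ∉ H → ψ x = 0}
  zero_mem' := ⟨fun _ _ _ _ => by simp, fun _ _ => rfl⟩
  add_mem' := by
    rintro φ ψ ⟨h1, h2⟩ ⟨h3, h4⟩
    refine ⟨fun a ha b hb => ?_, fun x hx => ?_⟩
    · simp only [Pi.add_apply, h1 a ha b hb, h3 a ha b hb]; ring
    · simp only [Pi.add_apply, h2 x hx, h4 x hx, add_zero]
  smul_mem' := by
    rintro c φ ⟨h1, h2⟩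
    refine ⟨fun a ha b hb => ?_, fun x hx => ?_⟩
    · simp only [Pi.smul_apply, h1 a ha b hb, smul_eq_mul]; ring
    · simp only [Pi.smul_apply, h2 x hx, smul_zero]

theorem W_finite (S : Finset F) : Module.Finite ℚ (W (Subgroup.closure (S : Set F))) := by
  let f : W (Subgroup.closure (S : Set F)) →ₗ[ℚ] (S → ℚ) :=
    { toFun := fun ψ s => ψ.1 s
      map_add' := fun _ _ => rfl
      map_smul' := fun _ _ => rfl }
  refine Module.Finite.of_injective f ?_
  rw [injective_iff_map_eq_zero]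
  rintro ⟨ψ, h1, h2⟩ hψ
  have hle : Subgroup.closure (S : Set F) ≤ h1.ker := by
    rw [Subgroup.closure_le]
    intro x hx
    exact ⟨Subgroup.subset_closure hx, congrFun hψ ⟨x, hx⟩⟩
  ext x
  by_cases hx : x ∈ Subgroup.closure (S : Set F)
  · exact (hle hx).2
  · exact h2 x hx

/-- A bounded number of test elements suffices. -/
theorem exists_select (S : Finset F) : ∃ k : ℕ, ∀ A : Set F, ∃ T : Finset F,
    (T : Set F) ⊆ A ∧ T.card ≤ k ∧ ∀ ψ ∈ W (Subgroup.closure (S : Set F)),
      (∀ t ∈ T, ψ t = 0) → ∀ a ∈ A, ψ a = 0 := by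
  classical
  have := W_finite S
  set V := W (Subgroup.closure (S : Set F))
  let ev : F → Module.Dual ℚ V := fun x =>
    { toFun := fun ψ => ψ.1 x
      map_add' := fun _ _ => rfl
      map_smul' := fun _ _ => rfl }
  refine ⟨Module.finrank ℚ (Module.Dual ℚ V), fun A => ?_⟩
  obtain ⟨t, ht1, ht2, ht3, -⟩ := Submodule.exists_finset_span_eq_linearIndepOn ℚ (ev '' A)
  have hc : ∀ v : t, ∃ a ∈ A, ev a = v := fun v => ht1 v.2
  choose g hg1 hg2 using hc
  refine ⟨Finset.univ.image g, ?_, ?_, ?_⟩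
  · intro x hx
    obtain ⟨v, -, rfl⟩ := Finset.mem_image.mp hx
    exact hg1 v
  · refine Finset.card_image_le.trans ?_
    rw [Finset.card_univ, Fintype.card_coe, ht2]
    exact Submodule.finrank_le _
  · intro ψ hψ hT a ha
    have h1 : ev a ∈ Submodule.span ℚ (t : Set (Module.Dual ℚ V)) := by
      rw [ht3]; exact Submodule.subset_span ⟨a, ha, rfl⟩
    have h2 : ∀ v ∈ Submodule.span ℚ (t : Set (Module.Dual ℚ V)), v ⟨ψ, hψ⟩ = 0 := by
      intro v hv
      induction hv using Submodule.span_induction with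
      | mem v hv =>
        have := hg2 ⟨v, hv⟩
        simp only at this
        rw [← this]
        exact hT _ (Finset.mem_image_of_mem g (Finset.mem_univ _))
      | zero => rfl
      | add u v _ _ hu hv => rw [LinearMap.add_apply, hu, hv, add_zero]
      | smul c v _ hv => rw [LinearMap.smul_apply, hv, smul_zero]
    exact h2 _ h1

end General

end Pool.Agent.P.MP_09d285_al
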