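import Pool.Agent.P.MP_09d285_al.Core

/-! The construction of the presentation and the bound on first Betti numbers. -/

namespace Pool.Agent.P.MP_09d285_al

open scoped TensorProduct

theorem summable_iUnion {α ι : Type*} (w : α → ℝ) (hw : ∀ a, 0 ≤ w a) (T : ι → Finset α)
    (b : ι → ℝ) (hb : Summable b) (hT : ∀ i, ∑ t ∈ T i, w t ≤ b i) :
    Summable (fun r : (⋃ i, (T i : Set α)) => w r) ∧
      ∑' r : (⋃ i, (T i : Set α)), w r ≤ ∑' i, b i := by
  have hb0 : ∀ i, 0 ≤ b i := fun i => (Finset.sum_nonneg fun t _ => hw t).trans (hT i)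
  have h1 : ∑' r : (⋃ i, (T i : Set α)), ENNReal.ofReal (w r) ≤ ENNReal.ofReal (∑' i, b i) := by
    refine (ENNReal.tsum_iUnion_le_tsum (fun a => ENNReal.ofReal (w a)) _).trans ?_
    rw [ENNReal.ofReal_tsum_of_nonneg hb0 hb]
    refine ENNReal.tsum_le_tsum fun i => ?_
    rw [Finset.tsum_subtype' (T i) (fun a => ENNReal.ofReal (w a)),
      ← ENNReal.ofReal_sum_of_nonneg fun t _ => hw t]
    exact ENNReal.ofReal_le_ofReal (hT i)
  have h2 : ∑' r : (⋃ i, (T i : Set α)), ENNReal.ofReal (w r) ≠ ⊤ :=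
    ne_top_of_le_ne_top ENNReal.ofReal_ne_top h1
  have h3 : Summable (fun r : (⋃ i, (T i : Set α)) => w r) := by
    have := ENNReal.summable_toReal h2
    simpa only [ENNReal.toReal_ofReal (hw _)] using this
  refine ⟨h3, ?_⟩
  rw [← ENNReal.ofReal_tsum_of_nonneg (fun r => hw _) h3] at h1
  exact (ENNReal.ofReal_le_ofReal_iff (tsum_nonneg hb0)).mp h1

/-- The rank bound, given relators that kill deep commutators of every finitely generated
subgroup rationally. -/
theorem rank_le {d : ℕ} (R : Set (FreeGroup (Fin d)))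
    (hR : ∀ S : Finset (FreeGroup (Fin d)), ∃ n : ℕ,
      ∀ ψ ∈ W (Subgroup.closure (S : Set (FreeGroup (Fin d)))), (∀ t ∈ R, ψ t = 0) →
        ∀ a ∈ C (Subgroup.closure (S : Set (FreeGroup (Fin d)))) (n + 1), ψ a = 0)
    (L : Subgroup (PresentedGroup R)) [L.FiniteIndex] :
    Module.rank ℚ (ℚ ⊗[ℤ] Additive (Abelianization L)) ≤ d := by
  classical
  set π := PresentedGroup.mk R with hπ
  set L0 := L.normalCore with hL0
  set H : Subgroup (FreeGroup (Fin d)) := L0.comap π with hH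
  have hHn : H.Normal := Subgroup.Normal.comap inferInstance π
  have hHi : H.FiniteIndex := by
    refine ⟨?_⟩
    rw [hH, Subgroup.index_comap_of_surjective _ (PresentedGroup.mk_surjective R)]
    exact Subgroup.FiniteIndex.index_ne_zero
  obtain ⟨S, hS⟩ : H.FG := (Group.fg_iff_subgroup_fg H).mp inferInstance
  obtain ⟨n, hn⟩ := hR S
  rw [hS] at hn
  have hL : ∀ x ∈ H, π x ∈ L := fun x hx => L.normalCore_le hx
  let ι : L → ℚ ⊗[ℤ] Additive (Abelianization L) := fun l =>
    (1 : ℚ) ⊗ₜ[ℤ] Additive.ofMul (Abelianization.of l)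
  have hι : ∀ a b : L, ι (a * b) = ι a + ι b := by
    intro a b
    simp only [ι, map_mul, ofMul_mul, TensorProduct.tmul_add]
  let v : Fin d → ℚ ⊗[ℤ] Additive (Abelianization L) := fun i =>
    ι ⟨π (FreeGroup.of i ^ H.index), hL _ (H.pow_index_mem _)⟩
  have hspan : Submodule.span ℚ (Set.range v) = ⊤ := by
    by_contra hne
    obtain ⟨ℓ, hℓ0, hℓ⟩ := Submodule.exists_dual_map_eq_bot_of_lt_top
      (lt_top_iff_ne_top.mpr hne) inferInstance
    have hℓv : ∀ i, ℓ (v i) = 0 := by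
      intro i
      have : ℓ (v i) ∈ (Submodule.span ℚ (Set.range v)).map ℓ :=
        Submodule.mem_map_of_mem (Submodule.subset_span ⟨i, rfl⟩)
      rwa [hℓ, Submodule.mem_bot] at this
    let ψ : FreeGroup (Fin d) → ℚ := fun x => if hx : x ∈ H then ℓ (ι ⟨π x, hL x hx⟩) else 0
    have hψ : ∀ x (hx : x ∈ H), ψ x = ℓ (ι ⟨π x, hL x hx⟩) := fun x hx => dif_pos hx
    have hadd : AddOn H ψ := by
      intro a ha b hb
      rw [hψ _ (H.mul_mem ha hb), hψ a ha, hψ b hb, ← map_add, ← hι]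
      congr 2
    have hW : ψ ∈ W H := ⟨hadd, fun x hx => dif_neg hx⟩
    have hι1 : ι 1 = 0 := by
      simp only [ι, map_one, ofMul_one, TensorProduct.tmul_zero]
    have hRψ : ∀ t ∈ R, ψ t = 0 := by
      intro t ht
      have h1 : π t = 1 := PresentedGroup.one_of_mem ht
      have h2 : t ∈ H := by
        change π t ∈ L0
        rw [h1]; exact L0.one_mem
      rw [hψ t h2]
      have : (⟨π t, hL t h2⟩ : L) = 1 := Subtype.ext h1
      rw [this, hι1, map_zero]
    have hzero := vanish hadd n (hn ψ hW hRψ) (Set.range FreeGroup.of)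
      (FreeGroup.closure_range_of _) (by
        rintro _ ⟨i, rfl⟩
        rw [hψ _ (H.pow_index_mem _)]
        exact hℓv i)
    have hpow : ∀ (l : L) (k : ℕ), ι (l ^ k) = (k : ℚ) • ι l := by
      intro l k
      induction k with
      | zero => rw [pow_zero, hι1]; simp
      | succ k ih => rw [pow_succ, hι, ih]; push_cast; rw [add_smul, one_smul]
    have hall : ∀ l : L, ℓ (ι l) = 0 := by
      intro l
      obtain ⟨x, hx⟩ := PresentedGroup.mk_surjective R l
      have h1 := hzero _ (H.pow_index_mem x)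
      rw [hψ _ (H.pow_index_mem x)] at h1
      have h2 : (⟨π (x ^ H.index), hL _ (H.pow_index_mem x)⟩ : L) = l ^ H.index := by
        apply Subtype.ext
        simp only [map_pow, SubmonoidClass.coe_pow]
        rw [← hx]
      rw [h2, hpow, map_smul, smul_eq_mul] at h1
      have h3 : (H.index : ℚ) ≠ 0 := by exact_mod_cast Subgroup.FiniteIndex.index_ne_zero
      exact (mul_eq_zero.mp h1).resolve_left h3
    apply hℓ0
    apply LinearMap.ext
    intro z
    induction z using TensorProduct.induction_on with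
    | zero => simp
    | add a b ha hb => rw [map_add, ha, hb]; simp
    | tmul q a =>
      obtain ⟨l, hl⟩ : ∃ l : L, Abelianization.of l = Additive.toMul a :=
        QuotientGroup.mk_surjective (Additive.toMul a)
      have h1 : q ⊗ₜ[ℤ] a = q • ι l := by
        simp only [ι, hl, ofMul_toMul, TensorProduct.smul_tmul', smul_eq_mul, mul_one]
      rw [h1, map_smul, hall, smul_zero]
      rfl
  rw [← rank_top, ← hspan]
  refine (rank_span_le _).trans ?_
  simpa using Cardinal.mk_range_le_lift (f := v)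

/-- The presentation. -/
theorem exists_relators (d : ℕ) (τ ε : ℝ) (hτ0 : 0 ≤ τ) (hτ1 : τ < 1) (hε : 0 < ε)
    (w : FreeGroup (Fin d) → ℝ) (hw0 : ∀ r, 0 ≤ w r)
    (hw : ∀ r n, r ∈ (⊤ : Subgroup (FreeGroup (Fin d))).lowerCentralSeries n → w r ≤ τ ^ n) :
    ∃ R : Set (FreeGroup (Fin d)), Summable (fun r : R => w r) ∧ ∑' r : R, w r ≤ ε ∧
      ∀ L : Subgroup (PresentedGroup R), L.FiniteIndex →
        Module.rank ℚ (ℚ ⊗[ℤ] Additive (Abelianization L)) ≤ d := by
  classical
  let enc : Encodable (Finset (FreeGroup (Fin d))) := Encodable.ofCountable _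
  obtain ⟨b, hb0, c, hbc, hc⟩ := posSumOfEncodable hε (Finset (FreeGroup (Fin d)))
  have key : ∀ S : Finset (FreeGroup (Fin d)), ∃ (n : ℕ) (T : Finset (FreeGroup (Fin d))),
      ∑ t ∈ T, w t ≤ b S ∧
      ∀ ψ ∈ W (Subgroup.closure (S : Set (FreeGroup (Fin d)))), (∀ t ∈ T, ψ t = 0) →
        ∀ a ∈ C (Subgroup.closure (S : Set (FreeGroup (Fin d)))) (n + 1), ψ a = 0 := by
    intro S
    obtain ⟨k, hk⟩ := exists_select S
    obtain ⟨n, hn⟩ := exists_pow_lt_of_lt_one (div_pos (hb0 S) (Nat.cast_add_one_pos k)) hτ1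
    obtain ⟨T, hT1, hT2, hT3⟩ :=
      hk (C (Subgroup.closure (S : Set (FreeGroup (Fin d)))) (n + 1) : Set (FreeGroup (Fin d)))
    refine ⟨n, T, ?_, hT3⟩
    have h1 : ∀ t ∈ T, w t ≤ τ ^ n := fun t ht =>
      hw t n (Subgroup.lowerCentralSeries_antitone _ (Nat.le_succ n) (C_le_lcs _ _ (hT1 ht)))
    refine (Finset.sum_le_card_nsmul _ _ _ h1).trans ?_
    rw [nsmul_eq_mul]
    rw [lt_div_iff₀ (Nat.cast_add_one_pos k)] at hn
    have h2 : (T.card : ℝ) ≤ k := by exact_mod_cast hT2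
    have h3 : 0 ≤ τ ^ n := pow_nonneg hτ0 n
    nlinarith
  choose n T hT1 hT2 using key
  obtain ⟨h1, h2⟩ := summable_iUnion w hw0 T b hbc.summable hT1
  refine ⟨⋃ S, (T S : Set (FreeGroup (Fin d))), h1, ?_, fun L _ => rank_le _ ?_ L⟩
  · rw [hbc.tsum_eq] at h2
    exact h2.trans hc
  · intro S
    refine ⟨n S, fun ψ hψ hR => hT2 S ψ hψ fun t ht => hR t ?_⟩
    exact Set.mem_iUnion.mpr ⟨S, ht⟩

end Pool.Agent.P.MP_09d285_al
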